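import Pool.Agent.H718.QS.Cond

/-!
# Monomial conditions along very general germs are independent up to a linear error

Let `K` be a field of characteristic zero. A germ is given by a sequence `P` of elements of `K`: its
base point has the abscissa `P 0`, and it is the graph `y = ∑ P (k + 1) (x - P 0) ^ k`. A form `f` of
degree `d` has an expansion `f(P 0 + X, ξ(X) + Y, 1)`, `ξ = ∑ P (k + 1) X ^ k`, along the germ.

Let `P 1, …, P s` be germs and `t_1, …, t_s ≥ 1` real numbers with the sum `T ≥ 9`, such that the
numbers `P i k`, `k < t_i + 1`, are algebraically independent over `ℚ`. Let `M ≥ 0` be real,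
`d ≥ M √T`, and let `R i` be ANY finite set of monomials `X ^ a Y ^ b` with `a + t_i b < M t_i`. The
forms of degree `d` the expansions of which along the germ `P i` do not contain the monomials of `R i`
form a space whose dimension differs from the expected one, `(d + 2).choose 2 - ∑ |R i|`, by at most
`(s + (T - √T) / 2) M + s + T / 8`: it is not smaller, and not larger by more than that.

The largest possible sets `R i` contain altogether about `M ^ 2 T / 2` monomials; for `M = d / √T`
these are as many conditions as there are coefficients, up to a linear error. So the forms with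
`v_{P i, t_i}(f) ≥ μ t_i d` for all `i` form a space of dimension `(1 - μ ^ 2 T) d ^ 2 / 2 + O(d)` for
`0 ≤ μ ≤ 1 / √T`; this contains the theorem `μ̂(t) = √t` for `t ≥ 9` (one germ). For points (`t_i = 1`)
the sets of the `X ^ a Y ^ b` with `a + b < m_i`, `m_i ≤ d / √n`, give the asymptotic form of the
conjecture of Segre, Harbourne, Gimigliano and Hirschowitz in the nef range, with a linear error.
-/

set_option autoImplicit false

namespace Pool.Agent.Results.MP_dd8059_ag.NearlyIndependent

universe u

/-- the expansion `f(x₀ + X, ξ(X) + Y, 1)` of a form `f` along the germ `y = ξ(x - x₀)`, where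
`x₀ = P 0` and `ξ(X) = ∑ P (k + 1) X ^ k` -/
noncomputable def expansion {K : Type u} [Field K] (P : ℕ → K) (f : MvPolynomial (Fin 3) K) :
    Polynomial (PowerSeries K) :=
  MvPolynomial.aeval
    ![Polynomial.C (PowerSeries.C (P 0) + PowerSeries.X),
      Polynomial.C (PowerSeries.mk fun k => P (k + 1)) + Polynomial.X, 1] f

/-- the forms of degree `d` the expansions of which along the germs `P i` do not contain the
monomials `X ^ a Y ^ b`, `(a, b) ∈ R i` -/
noncomputable def forms {K : Type u} [Field K] {s : ℕ} (P : Fin s → ℕ → K)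
    (R : Fin s → Finset (ℕ × ℕ)) (d : ℕ) : Submodule K (MvPolynomial (Fin 3) K) where
  carrier := {f | f.IsHomogeneous d ∧ ∀ i, ∀ p ∈ R i,
    PowerSeries.coeff p.1 ((expansion (P i) f).coeff p.2) = 0}
  add_mem' := by
    rintro f g ⟨hf, hf'⟩ ⟨hg, hg'⟩
    refine ⟨hf.add hg, fun i p h => ?_⟩
    have e := map_add (MvPolynomial.aeval (R := K)
      ![Polynomial.C (PowerSeries.C (P i 0) + PowerSeries.X),
      Polynomial.C (PowerSeries.mk fun k => P i (k + 1)) + Polynomial.X, 1]) f g
    unfold expansion at *
    rw [e, Polynomial.coeff_add, map_add, hf' i p h, hg' i p h, add_zero]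
  zero_mem' := by
    refine ⟨MvPolynomial.isHomogeneous_zero _ _ _, fun i p _ => ?_⟩
    unfold expansion
    rw [map_zero, Polynomial.coeff_zero, map_zero]
  smul_mem' := by
    rintro c f ⟨hf, hf'⟩
    refine ⟨(MvPolynomial.homogeneousSubmodule (Fin 3) K d).smul_mem c hf, fun i p h => ?_⟩
    have h1 := hf' i p h
    unfold expansion at *
    rw [map_smul, Polynomial.coeff_smul, PowerSeries.coeff_smul, h1, smul_zero]

/-- the numbers `P i k` with `k < t i + 1` are algebraically independent over `ℚ` -/
def Generic {K : Type u} [Field K] [CharZero K] {s : ℕ} (t : Fin s → ℝ) (P : Fin s → ℕ → K) :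
    Prop :=
  AlgebraicIndependent ℚ (fun m : {m : Fin s × ℕ // (m.2 : ℝ) < t m.1 + 1} => P m.1.1 m.1.2)

theorem result (s : ℕ) (K : Type u) [Field K] [CharZero K] (t : Fin s → ℝ) (P : Fin s → ℕ → K)
    (ht : ∀ i, 1 ≤ t i) (h9 : 9 ≤ ∑ i, t i) (hP : Generic t P) (M : ℝ) (hM : 0 ≤ M)
    (R : Fin s → Finset (ℕ × ℕ)) (hR : ∀ i, ∀ p ∈ R i, (p.1 : ℝ) + t i * p.2 < M * t i)
    (d : ℕ) (hd : M * √(∑ i, t i) ≤ d) :
    (d + 2).choose 2 ≤ Module.finrank K (forms P R d) + ∑ i, (R i).card ∧
      (Module.finrank K (forms P R d) : ℝ) + ∑ i, ((R i).card : ℝ) ≤ ((d + 2).choose 2 : ℕ) +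
        ((s + (∑ i, t i - √(∑ i, t i)) / 2) * M + s + (∑ i, t i) / 8) :=
  ⟨Pool.Agent.H718.QS.fo_ge P R d, Pool.Agent.H718.QS.fo_le P hP ht h9 hM R hR hd⟩

end Pool.Agent.Results.MP_dd8059_ag.NearlyIndependent
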