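import Pool.Agent.H718.QS.Lim

/-!
# Nagata's conjecture for several very general quasimonomial valuations with arbitrary real weights

Let `K` be a field of characteristic zero. A germ is given by a sequence `P` of elements of `K`: its
base point has the abscissa `P 0`, and it is the graph `y = ∑ P (k + 1) (x - P 0) ^ k`. For a real
number `t ≥ 1` let `v_{P, t}` be the quasimonomial valuation with the weights `1` on `x - P 0` and `t`
on `y - ∑ P (k + 1) (x - P 0) ^ k`.

Let `P 1, …, P s` be germs and `t_1, …, t_s ≥ 1` real numbers with the sum `T ≥ 9`, such that the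
numbers `P i k`, `k < t_i + 1` (the base points and the coefficients of the germs on which the
valuations depend), are algebraically independent over `ℚ`. Then

* every nonzero form `f` of degree `d` satisfies `∑ v_{P i, t_i}(f) ≤ d √T`;
* if `best P t d` is the largest `μ` such that some nonzero form of degree `d` has `v_{P i, t_i}(f) ≥ μ
  t_i` for all `i`, then `best P t d / d` converges to `1 / √T`.

For `s = 1` this is Q1 of the problem (with an explicit meaning of very general): `μ̂(t) = √t` for
all real `t ≥ 9`. For `t_1 = … = t_s = 1` it is Nagata's conjecture for `s ≥ 9` points. The two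
theorems known from the library (S00493 and `MP_dd8059_ag.IndependentGerms` for one germ and real
weights, `MP_d0dfcd_ag.GenericClusters` for several germs and integral weights) are the extreme cases.
The germs `germs s` over `ℂ`, given by the numbers `exp (2 ^ (1 / 2 ^ n))`, satisfy the hypothesis for
all weights at the same time.

The main input is the emptiness theorem `TH308.QM.EmpW_plane` of the library for special germs.
-/

set_option autoImplicit false

namespace Pool.Agent.Results.MP_dd8059_ag.SeveralGerms

open Filter Topology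

universe u

/-- the expansion `f(x₀ + X, ξ(X) + Y, 1)` of a form `f` along the germ `y = ξ(x - x₀)`, where
`x₀ = P 0` and `ξ(X) = ∑ P (k + 1) X ^ k` -/
noncomputable def expansion {K : Type u} [Field K] (P : ℕ → K) (f : MvPolynomial (Fin 3) K) :
    Polynomial (PowerSeries K) :=
  MvPolynomial.aeval
    ![Polynomial.C (PowerSeries.C (P 0) + PowerSeries.X),
      Polynomial.C (PowerSeries.mk fun k => P (k + 1)) + Polynomial.X, 1] f

/-- the quasimonomial valuation with the weights `1` on `x - x₀` and `t` on `y - ξ(x - x₀)`: the least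
`i + t j` such that `X ^ i Y ^ j` occurs in the expansion -/
noncomputable def val {K : Type u} [Field K] (P : ℕ → K) (t : ℝ) (f : MvPolynomial (Fin 3) K) : ℝ :=
  sInf {v : ℝ | ∃ i j : ℕ, PowerSeries.coeff i ((expansion P f).coeff j) ≠ 0 ∧ v = i + t * j}

/-- the numbers `P i k` with `k < t i + 1` are algebraically independent over `ℚ` -/
def Generic {K : Type u} [Field K] [CharZero K] {s : ℕ} (t : Fin s → ℝ) (P : Fin s → ℕ → K) :
    Prop :=
  AlgebraicIndependent ℚ (fun m : {m : Fin s × ℕ // (m.2 : ℝ) < t m.1 + 1} => P m.1.1 m.1.2)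

/-- the largest `μ` such that some nonzero form of degree `d` has `v_{P i, t i}(f) ≥ μ t i` for
all `i` -/
noncomputable def best {K : Type u} [Field K] {s : ℕ} (P : Fin s → ℕ → K) (t : Fin s → ℝ)
    (d : ℕ) : ℝ :=
  sSup {μ : ℝ | ∃ f : MvPolynomial (Fin 3) K, f.IsHomogeneous d ∧ f ≠ 0 ∧
    ∀ i, μ * t i ≤ val (P i) (t i) f}

/-- the germs given by the numbers `exp (2 ^ (1 / 2 ^ n))` -/
noncomputable def germs (s : ℕ) (i : Fin s) (k : ℕ) : ℂ :=
  ((Real.exp ((2 : ℝ) ^ ((1 : ℝ) / 2 ^ (s * k + i + 1))) : ℝ) : ℂ)

theorem result (s : ℕ) :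
    (∀ (K : Type u) [Field K] [CharZero K] (t : Fin s → ℝ) (P : Fin s → ℕ → K),
      (∀ i, 1 ≤ t i) → 9 ≤ ∑ i, t i → Generic t P →
        (∀ (d : ℕ) (f : MvPolynomial (Fin 3) K), f.IsHomogeneous d → f ≠ 0 →
          ∑ i, val (P i) (t i) f ≤ d * √(∑ i, t i)) ∧
        Tendsto (fun d : ℕ => best P t d / d) atTop (𝓝 (1 / √(∑ i, t i)))) ∧
    ∀ t : Fin s → ℝ, Generic t (germs s) :=
  ⟨fun _ _ _ _ P ht h9 hP =>
    ⟨fun _ _ hf h0 => Pool.Agent.H718.QS.sum_val_le P hP ht h9 hf h0,
      Pool.Agent.H718.QS.best_tendsto P hP ht h9⟩,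
    fun t => Pool.Agent.H718.QS.expl_generic s t⟩

end Pool.Agent.Results.MP_dd8059_ag.SeveralGerms
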